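import Pool.Agent.W188.MZ.Stm

set_option autoImplicit false

/-! Project MZ (MP_973905_nt): powers of the local sums -/

open Complex MeasureTheory Set Filter Topology

namespace Pool.Agent.W32.MZ

open Pool.Agent.W188.QS Pool.Agent.W188.GP Pool.Agent.W188.MZ

theorem ZZ_nonneg (t : ℝ) : 0 ≤ ZZ t := norm_nonneg _

theorem rpow_sum_le {ι : Type} (s : Finset ι) (f : ι → ℝ) (hf : ∀ i, 0 ≤ f i) {p : ℝ}
    (hp : 0 < p) (hp1 : p ≤ 1) : (∑ i ∈ s, f i) ^ p ≤ ∑ i ∈ s, f i ^ p := by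
  classical
  induction s using Finset.induction_on with
  | empty => simp [Real.zero_rpow hp.ne']
  | insert a s ha ih =>
    rw [Finset.sum_insert ha, Finset.sum_insert ha]
    refine (Real.rpow_add_le_add_rpow (hf a) (Finset.sum_nonneg fun i _ => hf i) hp.le hp1).trans ?_
    exact add_le_add le_rfl ih

/-- the main estimate for one sum -/
theorem pow_est {ι : Type} (s : Finset ι) (Z q : ι → ℝ) (hZ : ∀ i, 0 ≤ Z i) (hq : ∀ i, 1 ≤ q i)
    {p C : ℝ} {m : ℕ} (hp : 0 < p) (hm : 2 ≤ m) (hpm : 2 ≤ p * m) (hC : 0 < C)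
    (hs : ∑ i ∈ s, 1 / q i ^ 2 ≤ C) :
    (∑ i ∈ s, Z i / q i ^ m) ^ p ≤ max 1 (C ^ (p - 1)) * ∑ i ∈ s, Z i ^ p / q i ^ 2 := by
  have hq0 : ∀ i, 0 < q i := fun i => lt_of_lt_of_le one_pos (hq i)
  have hterm : ∀ i, 0 ≤ Z i ^ p / q i ^ 2 := fun i => by
    have := hq0 i
    have := Real.rpow_nonneg (hZ i) p
    positivity
  have hsum0 : 0 ≤ ∑ i ∈ s, Z i ^ p / q i ^ 2 := Finset.sum_nonneg fun i _ => hterm i
  rcases le_or_gt p 1 with hp1 | hp1
  · have h1 : (∑ i ∈ s, Z i / q i ^ m) ^ p ≤ ∑ i ∈ s, (Z i / q i ^ m) ^ p :=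
      rpow_sum_le s _ (fun i => div_nonneg (hZ i) (pow_nonneg (hq0 i).le _)) hp hp1
    have h2 : ∑ i ∈ s, (Z i / q i ^ m) ^ p ≤ ∑ i ∈ s, Z i ^ p / q i ^ 2 := by
      refine Finset.sum_le_sum fun i _ => ?_
      rw [Real.div_rpow (hZ i) (pow_nonneg (hq0 i).le _)]
      refine div_le_div_of_nonneg_left (Real.rpow_nonneg (hZ i) p) (pow_pos (hq0 i) 2) ?_
      rw [← Real.rpow_natCast (q i) m, ← Real.rpow_mul (hq0 i).le, ← Real.rpow_natCast (q i) 2]
      apply Real.rpow_le_rpow_of_exponent_le (hq i)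
      push_cast
      linarith
    calc (∑ i ∈ s, Z i / q i ^ m) ^ p ≤ ∑ i ∈ s, Z i ^ p / q i ^ 2 := h1.trans h2
      _ = 1 * ∑ i ∈ s, Z i ^ p / q i ^ 2 := (one_mul _).symm
      _ ≤ _ := mul_le_mul_of_nonneg_right (le_max_left _ _) hsum0
  · have h1 : ∑ i ∈ s, Z i / q i ^ m ≤ ∑ i ∈ s, (1 / q i ^ 2) * Z i := by
      refine Finset.sum_le_sum fun i _ => ?_
      rw [one_div_mul_eq_div]
      refine div_le_div_of_nonneg_left (hZ i) (pow_pos (hq0 i) 2) ?_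
      exact pow_le_pow_right₀ (hq i) hm
    have hv0 : ∀ i, 0 ≤ 1 / q i ^ 2 := fun i => by
      have := hq0 i
      positivity
    have h2 := Real.inner_le_weight_mul_Lp_of_nonneg s hp1.le (fun i => 1 / q i ^ 2) Z hv0 hZ
    have h3 : 0 ≤ ∑ i ∈ s, Z i / q i ^ m :=
      Finset.sum_nonneg fun i _ => div_nonneg (hZ i) (pow_nonneg (hq0 i).le _)
    have hA : 0 ≤ ∑ i ∈ s, 1 / q i ^ 2 := Finset.sum_nonneg fun i _ => hv0 i
    have hBe : ∑ i ∈ s, (1 / q i ^ 2) * Z i ^ p = ∑ i ∈ s, Z i ^ p / q i ^ 2 :=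
      Finset.sum_congr rfl fun i _ => one_div_mul_eq_div _ _
    have h4 : (∑ i ∈ s, Z i / q i ^ m) ^ p ≤
        ((∑ i ∈ s, 1 / q i ^ 2) ^ (1 - p⁻¹) * (∑ i ∈ s, Z i ^ p / q i ^ 2) ^ p⁻¹) ^ p := by
      refine Real.rpow_le_rpow h3 ?_ hp.le
      rw [← hBe]
      exact h1.trans h2
    refine h4.trans ?_
    rw [Real.mul_rpow (Real.rpow_nonneg hA _) (Real.rpow_nonneg hsum0 _), ← Real.rpow_mul hA,
      ← Real.rpow_mul hsum0, inv_mul_cancel₀ hp.ne', Real.rpow_one]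
    refine mul_le_mul_of_nonneg_right ?_ hsum0
    have e : (1 - p⁻¹) * p = p - 1 := by
      rw [sub_mul, inv_mul_cancel₀ hp.ne', one_mul]
    rw [e]
    exact (Real.rpow_le_rpow hA hs (by linarith)).trans (le_max_right _ _)

theorem mz_pow (h : StSpc) (h1 : StTau) : StPow := by
  intro p m hp hm hpm
  obtain ⟨C0, T0, hC0, hspc⟩ := h
  have hnd := h1.2.2.2.2.2.2.2.2.2.2.2.2
  -- large T
  have hlo : ∀ᶠ T : ℝ in atTop, Real.log T ≤ 1 / 16 * T := by
    have := Real.isLittleO_log_id_atTop.def (show (0 : ℝ) < 1 / 16 by norm_num)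
    filter_upwards [this, eventually_ge_atTop 0] with T hT hT0
    simp only [id, Real.norm_eq_abs, abs_of_nonneg hT0] at hT
    exact (le_abs_self _).trans hT
  obtain ⟨T1, hT1⟩ := eventually_atTop.1 hlo
  set K : ℝ := max 1 (C0 ^ (p - 1)) with hK
  have hK0 : 0 < K := lt_of_lt_of_le one_pos (le_max_left _ _)
  refine ⟨2 ^ p * K, max T0 (max T1 1600), by positivity, ?_⟩
  intro T γ a b t hT ha hat htb hb
  have hT0 : T0 ≤ T := (le_max_left _ _).trans hT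
  have hT1' : T1 ≤ T := (le_max_left _ _).trans ((le_max_right _ _).trans hT)
  have hT2 : 1600 ≤ T := (le_max_right _ _).trans ((le_max_right _ _).trans hT)
  have hL1 := hT1 T hT1'
  have hL0 : 0 ≤ Real.log T := Real.log_nonneg (by linarith)
  -- one family
  have hone : ∀ γ : ℝ, 0 ≤ Sg m γ T t ∧ 0 ≤ Wg p γ T a b t ∧
      Sg m γ T t ^ p ≤ K * Wg p γ T a b t := by
    intro γ
    have hq : ∀ n : ℤ, 1 ≤ 1 + Real.log T * |tau (n + γ) - t| := fun n => by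
      have := mul_nonneg hL0 (abs_nonneg (tau (n + γ) - t))
      linarith
    have hq0 : ∀ n : ℤ, 0 < 1 + Real.log T * |tau (n + γ) - t| := fun n =>
      lt_of_lt_of_le one_pos (hq n)
    have hs := hspc T γ (t - 2 * Real.log T) (t + 2 * Real.log T) t hT0 (by linarith)
      (by linarith)
    have hest := pow_est (nd γ (t - 2 * Real.log T) (t + 2 * Real.log T))
      (fun n : ℤ => ZZ (tau (n + γ))) (fun n : ℤ => 1 + Real.log T * |tau (n + γ) - t|)
      (fun n => ZZ_nonneg _) hq hp hm hpm hC0 hs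
    have hterm : ∀ n : ℤ, 0 ≤ ZZ (tau (n + γ)) ^ p / (1 + Real.log T * |tau (n + γ) - t|) ^ 2 :=
      fun n => div_nonneg (Real.rpow_nonneg (ZZ_nonneg _) p) (pow_nonneg (hq0 n).le _)
    have hsub : nd γ (t - 2 * Real.log T) (t + 2 * Real.log T) ⊆
        nd γ (a - 2 * Real.log T) (b + 2 * Real.log T) := by
      intro n hn
      rw [hnd] at hn ⊢
      constructor <;> linarith [hn.1, hn.2]
    refine ⟨Finset.sum_nonneg fun n _ => div_nonneg (ZZ_nonneg _) (pow_nonneg (hq0 n).le _),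
      Finset.sum_nonneg fun n _ => hterm n, hest.trans ?_⟩
    exact mul_le_mul_of_nonneg_left
      (Finset.sum_le_sum_of_subset_of_nonneg hsub fun n _ _ => hterm n) hK0.le
  obtain ⟨a1, a2, a3⟩ := hone γ
  obtain ⟨b1, b2, b3⟩ := hone (γ + 1 / 2)
  have hmax0 : 0 ≤ max (Sg m γ T t) (Sg m (γ + 1 / 2) T t) := a1.trans (le_max_left _ _)
  have hsum : S2 m γ T t ≤ 2 * max (Sg m γ T t) (Sg m (γ + 1 / 2) T t) := by
    unfold S2
    have := le_max_left (Sg m γ T t) (Sg m (γ + 1 / 2) T t)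
    have := le_max_right (Sg m γ T t) (Sg m (γ + 1 / 2) T t)
    linarith
  have hS0 : 0 ≤ S2 m γ T t := add_nonneg a1 b1
  have hmaxp : max (Sg m γ T t) (Sg m (γ + 1 / 2) T t) ^ p ≤ K * W2 p γ T a b t := by
    unfold W2
    rcases max_choice (Sg m γ T t) (Sg m (γ + 1 / 2) T t) with hc | hc
    · rw [hc]
      have := mul_nonneg hK0.le b2
      linarith [mul_add K (Wg p γ T a b t) (Wg p (γ + 1 / 2) T a b t)]
    · rw [hc]
      have := mul_nonneg hK0.le a2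
      linarith [mul_add K (Wg p γ T a b t) (Wg p (γ + 1 / 2) T a b t)]
  calc S2 m γ T t ^ p ≤ (2 * max (Sg m γ T t) (Sg m (γ + 1 / 2) T t)) ^ p :=
        Real.rpow_le_rpow hS0 hsum hp.le
    _ = 2 ^ p * max (Sg m γ T t) (Sg m (γ + 1 / 2) T t) ^ p :=
        Real.mul_rpow (by norm_num) hmax0
    _ ≤ 2 ^ p * (K * W2 p γ T a b t) :=
        mul_le_mul_of_nonneg_left hmaxp (Real.rpow_nonneg (by norm_num) p)
    _ = 2 ^ p * K * W2 p γ T a b t := by ring

end Pool.Agent.W32.MZ
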